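import Pool.Agent.H806R3.BidD

/-!
# MP_dad4ef_an: the bidisk analogue of the Brown–Shields conjecture is false

The function `F (z₁,z₂) = (1-s)² exp(-(1+s)/(1-s))`, `s = (z₁+z₂)/2`, lies in the Dirichlet space
of the bidisk, is outer, its radial limits vanish on `𝕋²` at most at the point `(1,1)`, and it is
not cyclic.  (Its restriction to the diagonal, a contraction onto functions of `H²(𝔻)`, carries a
nonconstant inner factor.)
-/

set_option autoImplicit false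

namespace Pool.Agent.Results.MP_dad4ef_an.OuterNotCyclic

open Filter Topology Real MeasureTheory

/-- the open bidisk `𝔻²` -/
def bidisk : Set (ℂ × ℂ) := {z | ‖z.1‖ < 1 ∧ ‖z.2‖ < 1}

/-- `f` is given on the bidisk by the power series `∑ a_{k,l} z₁^k z₂^l`
(unconditionally convergent). -/
def HasCoeffs (f : ℂ × ℂ → ℂ) (a : ℕ × ℕ → ℂ) : Prop :=
  ∀ z ∈ bidisk, HasSum (fun k : ℕ × ℕ => a k * (z.1 ^ k.1 * z.2 ^ k.2)) (f z)

/-- The square of the Dirichlet norm, `∑ (k+1)(l+1)|a_{k,l}|²`; it is `⊤` when `f` has no power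
series on the bidisk (the power series is unique when it exists, so the infimum is over at most one
family).  The Dirichlet space consists of the `f` with `dirichletSq f < ⊤`. -/
noncomputable def dirichletSq (f : ℂ × ℂ → ℂ) : ENNReal :=
  ⨅ (a : ℕ × ℕ → ℂ) (_ : HasCoeffs f a),
    ∑' k : ℕ × ℕ, ENNReal.ofReal (((k.1 : ℝ) + 1) * ((k.2 : ℝ) + 1) * ‖a k‖ ^ 2)

/-- `f` is cyclic: there are polynomials `p` with `‖p f - 1‖` arbitrarily small. -/
def IsCyclic (f : ℂ × ℂ → ℂ) : Prop :=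
  ∀ ε : ℝ, 0 < ε → ∃ p : MvPolynomial (Fin 2) ℂ,
    dirichletSq (fun z => MvPolynomial.eval ![z.1, z.2] p * f z - 1) < ENNReal.ofReal ε

/-- `f` has radial limit `w` at the point `ζ`: `f (r ζ) → w` as `r → 1-` -/
def RadialLim (f : ℂ × ℂ → ℂ) (ζ : ℂ × ℂ) (w : ℂ) : Prop :=
  Tendsto (fun r : ℝ => f ((r : ℂ) * ζ.1, (r : ℂ) * ζ.2)) (𝓝[<] (1 : ℝ)) (𝓝 w)

/-- the point `(e^{iθ₁}, e^{iθ₂})` of `𝕋²` -/
noncomputable def torus (θ : ℝ × ℝ) : ℂ × ℂ := (circleMap 0 1 θ.1, circleMap 0 1 θ.2)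

/-- Lebesgue measure on `(0,2π]²`; it is `(2π)²` times normalised Haar measure of `𝕋²`. -/
noncomputable def haar2 : Measure (ℝ × ℝ) :=
  (volume.restrict (Set.Ioc 0 (2 * π))).prod (volume.restrict (Set.Ioc 0 (2 * π)))

/-- `f` is outer: with `g` its almost everywhere radial boundary values, `log |g|` is integrable
on `𝕋²` and `log |f|` is its Poisson integral on the bidisk (both `f` on the bidisk and `g` almost
everywhere do not vanish, so the logarithms are genuine). -/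
def IsOuter (f : ℂ × ℂ → ℂ) : Prop :=
  (∀ z ∈ bidisk, f z ≠ 0) ∧ ∃ g : ℂ × ℂ → ℂ,
    (∀ᵐ θ ∂haar2, RadialLim f (torus θ) (g (torus θ)) ∧ g (torus θ) ≠ 0) ∧
    Integrable (fun θ => Real.log ‖g (torus θ)‖) haar2 ∧
    ∀ z ∈ bidisk, Real.log ‖f z‖ = ((2 * π)⁻¹) ^ 2 * ∫ θ, Real.log ‖g (torus θ)‖ *
      (poissonKernel 0 z.1 (circleMap 0 1 θ.1) * poissonKernel 0 z.2 (circleMap 0 1 θ.2)) ∂haar2

/-- the set `𝒵(f*)` of the points of `𝕋²` at which the radial limit exists and is `0` -/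
def zeroSet (f : ℂ × ℂ → ℂ) : Set (ℂ × ℂ) := {ζ | ‖ζ.1‖ = 1 ∧ ‖ζ.2‖ = 1 ∧ RadialLim f ζ 0}

/-- `log (e / t)`, with value `⊤` for `t = 0` -/
noncomputable def logKer (t : ℝ) : ENNReal :=
  if t = 0 then ⊤ else ENNReal.ofReal (Real.log (Real.exp 1 / t))

/-- logarithmic energy of a measure -/
noncomputable def energy (μ : Measure (ℂ × ℂ)) : ENNReal :=
  ∫⁻ ζ, ∫⁻ ξ, logKer ‖ζ.1 - ξ.1‖ * logKer ‖ζ.2 - ξ.2‖ ∂μ ∂μ

/-- `E` has logarithmic capacity `0`: it carries no probability measure of finite energy. -/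
def CapZero (E : Set (ℂ × ℂ)) : Prop :=
  ∀ μ : Measure (ℂ × ℂ), IsProbabilityMeasure μ → μ Eᶜ = 0 → energy μ = ⊤

/-- the counterexample -/
noncomputable def F (z : ℂ × ℂ) : ℂ :=
  (1 - (z.1 + z.2) / 2) ^ 2 *
    Complex.exp (-((1 + (z.1 + z.2) / 2) / (1 - (z.1 + z.2) / 2)))

open Pool.Agent.H806R3.Bid

lemma F_eq (z : ℂ × ℂ) : F z = gg ((z.1 + z.2) / 2) := rfl

lemma half_mem {u v : ℂ} (hu : ‖u‖ ≤ 1) (hv : ‖v‖ ≤ 1) : (u + v) / 2 ∈ Metric.closedBall (0:ℂ) 1 := by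
  rw [mem_closedBall_zero_iff, norm_div]
  have := norm_add_le u v
  have h2' : ‖(2:ℂ)‖ = 2 := by simp
  rw [h2', div_le_one (by norm_num)]
  linarith

lemma radial {ζ : ℂ × ℂ} (h1 : ‖ζ.1‖ ≤ 1) (h2 : ‖ζ.2‖ ≤ 1) : RadialLim F ζ (F ζ) := by
  unfold RadialLim
  simp only [F_eq]
  have hc : ContinuousWithinAt gg (Metric.closedBall 0 1) ((ζ.1 + ζ.2) / 2) :=
    contOn_gg _ (half_mem h1 h2)
  refine hc.tendsto.comp ?_
  refine tendsto_nhdsWithin_iff.2 ⟨?_, ?_⟩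
  · have : Continuous fun r : ℝ => ((r : ℂ) * ζ.1 + (r : ℂ) * ζ.2) / 2 := by fun_prop
    have h3 := this.tendsto 1
    simp only [Complex.ofReal_one, one_mul] at h3
    exact h3.mono_left nhdsWithin_le_nhds
  · have h0 : ∀ᶠ r : ℝ in 𝓝[<] 1, 0 < r :=
      (lt_mem_nhds (zero_lt_one (α := ℝ))).filter_mono nhdsWithin_le_nhds
    filter_upwards [h0, self_mem_nhdsWithin] with r h0 hr
    have hr1 : ∀ u : ℂ, ‖u‖ ≤ 1 → ‖(r : ℂ) * u‖ ≤ 1 := by
      intro u hu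
      rw [norm_mul, Complex.norm_real, Real.norm_of_nonneg h0.le]
      have : r < 1 := hr
      nlinarith [norm_nonneg u]
    exact half_mem (hr1 _ h1) (hr1 _ h2)

lemma F_ne {z : ℂ × ℂ} (h1 : ‖z.1‖ ≤ 1) (h2 : ‖z.2‖ ≤ 1) (h : z.1 ≠ 1) : F z ≠ 0 := by
  rw [F_eq]; exact gg_ne (ne_one_of h1 h2 h)

lemma zeroSet_sub : zeroSet F ⊆ {((1 : ℂ), (1 : ℂ))} := by
  rintro ζ ⟨h1, h2, h3⟩
  have h4 := tendsto_nhds_unique (radial h1.le h2.le) h3
  have h5 : ζ.1 = 1 := by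
    by_contra h
    exact F_ne h1.le h2.le h h4
  have h6 : ζ.2 = 1 := by
    by_contra h
    have h7 : (ζ.2 + ζ.1) / 2 ≠ 1 := ne_one_of h2.le h1.le h
    rw [F_eq, add_comm] at h4
    exact gg_ne h7 h4
  exact Prod.ext h5 h6

lemma capZero_of_sub {E : Set (ℂ × ℂ)} {p : ℂ × ℂ} (h : E ⊆ {p}) : CapZero E := by
  intro μ hμ hE
  have h1 : ∀ᵐ ζ ∂μ, ζ = p := by
    rw [ae_iff]
    refine measure_mono_null ?_ hE
    intro ζ hζ hζE
    exact hζ (h hζE)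
  unfold energy
  have h2 : (fun ζ => ∫⁻ ξ, logKer ‖ζ.1 - ξ.1‖ * logKer ‖ζ.2 - ξ.2‖ ∂μ) =ᵐ[μ] fun _ => ⊤ := by
    filter_upwards [h1] with ζ hζ
    have h3 : (fun ξ : ℂ × ℂ => logKer ‖ζ.1 - ξ.1‖ * logKer ‖ζ.2 - ξ.2‖) =ᵐ[μ] fun _ => ⊤ := by
      filter_upwards [h1] with ξ hξ
      rw [hζ, hξ]
      simp [logKer]
    rw [lintegral_congr_ae h3, lintegral_const, measure_univ, mul_one]
  rw [lintegral_congr_ae h2, lintegral_const, measure_univ, mul_one]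

lemma dirichlet_F : dirichletSq F < ⊤ := by
  obtain ⟨a, ha, hs⟩ := F_mem
  refine lt_of_le_of_lt (iInf₂_le a ?_) hs
  intro z hz
  exact ha z hz.1 hz.2

lemma outer_F : IsOuter F := by
  have hne : ∀ z ∈ bidisk, F z ≠ 0 := by
    intro z hz
    refine F_ne hz.1.le hz.2.le ?_
    intro h
    have := hz.1
    rw [h] at this
    simp at this
  refine ⟨hne, F, ?_, integrable_LL, ?_⟩
  · have h : ∀ᵐ θ ∂(mm.prod mm), cc θ.1 ≠ 1 := by
      exact (Measure.quasiMeasurePreserving_fst (μ := mm) (ν := mm)).ae ae_ne_one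
    have h' : ∀ᵐ θ ∂haar2, cc θ.1 ≠ 1 := h
    filter_upwards [h'] with θ hθ
    have h1 : ‖(torus θ).1‖ = 1 := norm_cc θ.1
    have h2 : ‖(torus θ).2‖ = 1 := norm_cc θ.2
    exact ⟨radial h1.le h2.le, F_ne h1.le h2.le hθ⟩
  · intro z hz
    exact poisson2 hz.1 hz.2

lemma not_cyclic_F : ¬ IsCyclic F := by
  intro h
  obtain ⟨p, hp⟩ := h (1 / 16) (by norm_num)
  unfold dirichletSq at hp
  simp only [iInf_lt_iff] at hp
  obtain ⟨b, hb, hlt⟩ := hp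
  exact not_small p b (fun z h1 h2 => hb z ⟨h1, h2⟩) hlt.le

/-- **The bidisk analogue of the Brown–Shields conjecture is false.**  The explicit function
`F (z₁,z₂) = (1-s)² exp(-(1+s)/(1-s))`, `s = (z₁+z₂)/2`, belongs to the Dirichlet space of the
bidisk, is outer, its radial zero set is contained in the one point `(1,1)` and so has logarithmic
capacity `0`, and `F` is not cyclic. -/
theorem result : dirichletSq F < ⊤ ∧ IsOuter F ∧ zeroSet F ⊆ {((1 : ℂ), (1 : ℂ))} ∧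
    CapZero (zeroSet F) ∧ ¬ IsCyclic F :=
  ⟨dirichlet_F, outer_F, zeroSet_sub, capZero_of_sub zeroSet_sub, not_cyclic_F⟩

end Pool.Agent.Results.MP_dad4ef_an.OuterNotCyclic
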